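import Mathlib
import Pool.Agent.MP_29b5d3_an.h48.Upper
import Pool.Agent.MP_29b5d3_an.h48.Defs2

set_option autoImplicit false

namespace Pool.Agent.Results.MP_29b5d3_an.CircleSymmetric

open Pool.Agent.MP_29b5d3_an.h48

/-- The sharp exponent `nK/(K-1)` for `K`-quasiregular maps that commute with the circles of
rotations `exp (t J i)`, where `J 1, ..., J d` are anticommuting orthogonal complex structures of a
subspace `W` of codimension at most `d + 1`. -/
theorem result :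
  ∀ n : ℕ, 3 ≤ n → ∀ d : ℕ, 1 ≤ d → ∀ W : Submodule ℝ (EuclideanSpace ℝ (Fin n)), W ≠ ⊥ →
    n ≤ Module.finrank ℝ W + d + 1 →
    ∀ J : Fin d → (EuclideanSpace ℝ (Fin n) →L[ℝ] EuclideanSpace ℝ (Fin n)),
    IsCliffordSystem W J → ∀ K : ℝ, 1 < K →
    IsLUB {p : ℝ | (n : ℝ) ≤ p ∧ ∀ Ω f Df, IsQR (n := n) K Ω f Df →
        (∀ i t, Commutes Ω f (circleRot (J i) t)) → LocLp (ENNReal.ofReal p) Ω Df}
      ((n : ℝ) * K / (K - 1)) := by
  intro n hn d hd W hW hW' J ⟨j1, j2, j3⟩ K hK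
  have e : Module.finrank ℝ (EuclideanSpace ℝ (Fin n)) = n := finrank_euclideanSpace_fin
  have hJ : Cliff W J := ⟨j1, j2, j3⟩
  refine isLUB_of (by omega) hK (fun p hp Ω f Df h1 h2 C hC hCΩ => ?_) fun p hp h => ?_
  · exact main_cliff (by omega) W hJ hd hW (by omega) h1.sobOn.1 hK h1.sobOn.2 h2
      (by rw [e]; exact hp) hC hCΩ
  · exact lt_of_locLp_rad (by omega) hK hp
      (h _ _ _ (isQR_rad (by omega) hK) fun i t x _ _ => rad_iso _ ((hJ.gen i).iso t) x)

end Pool.Agent.Results.MP_29b5d3_an.CircleSymmetric
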