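import Mathlib
import Pool.Agent.MP_29b5d3_an.h35.Loc

set_option autoImplicit false

namespace Pool.Agent.Results.MP_29b5d3_an.ConvexGradient

open MeasureTheory Pool.Agent.MP_29b5d3_an.h48

/-- The sharp exponent `nK/(K-1)` for `K`-quasiregular maps whose weak derivative is symmetric
and positive semidefinite almost everywhere (locally, gradients of convex functions). -/
theorem result :
  ∀ n : ℕ, 2 ≤ n → ∀ K : ℝ, 1 < K →
    IsLUB {p : ℝ | (n : ℝ) ≤ p ∧ ∀ Ω f Df, IsQR (n := n) K Ω f Df →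
        (∀ᵐ x ∂(volume.restrict Ω), (Df x).IsPositive) → LocLp (ENNReal.ofReal p) Ω Df}
      ((n : ℝ) * K / (K - 1)) := by
  intro n hn K hK
  have e : Module.finrank ℝ (EuclideanSpace ℝ (Fin n)) = n := finrank_euclideanSpace_fin
  have k0 : 0 < 1 / K := by positivity
  refine isLUB_of (by omega) hK (fun p hp Ω f Df h1 h2 C hC hCΩ => ?_) fun p hp h => ?_
  · exact Pool.Agent.MP_29b5d3_an.h35.higher e hn h1.sobOn.1 hK h1.2.2.2.2 h2 hp hC hCΩ
  · exact lt_of_locLp_rad (by omega) hK hp (h _ _ _ (isQR_rad (by omega) hK)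
      (Filter.Eventually.of_forall (Pool.Agent.MP_29b5d3_an.h35.Drad_pos (by linarith))))

end Pool.Agent.Results.MP_29b5d3_an.ConvexGradient
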