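import Mathlib
import Pool.Agent.MP_29b5d3_an.EX.All

set_option autoImplicit false

namespace Pool.Agent.Results.MP_29b5d3_an.ExactNearConformal

open Pool.Agent.MP_29b5d3_an.h48

/-- In every dimension `n ≥ 3` there is `K₀ > 1` such that for `1 < K ≤ K₀` the least upper bound
of the exponents of local integrability of the derivative of all `K`-quasiregular maps is
exactly `nK/(K-1)`. -/
theorem result :
  ∀ n : ℕ, 3 ≤ n → ∃ K₀ : ℝ, 1 < K₀ ∧ ∀ K : ℝ, 1 < K → K ≤ K₀ →
    IsLUB {p : ℝ | (n : ℝ) ≤ p ∧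
      ∀ Ω f Df, IsQR (n := n) K Ω f Df → LocLp (ENNReal.ofReal p) Ω Df}
      ((n : ℝ) * K / (K - 1)) :=
  fun _ hn => Pool.Agent.MP_29b5d3_an.EX.mainX hn

end Pool.Agent.Results.MP_29b5d3_an.ExactNearConformal
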