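import Mathlib
import Pool.Agent.MP_29b5d3_an.NC.All
import Pool.Agent.MP_29b5d3_an.NC.FacC

set_option autoImplicit false

namespace Pool.Agent.Results.MP_29b5d3_an.FineFactor

open Pool.Agent.MP_29b5d3_an Pool.Agent.MP_29b5d3_an.h48

/-- The sharp exponent `nK/(K-1)` for the `K`-quasiregular maps that are locally injective
compositions of Lipschitz maps and of quasiregular maps with dilatations close to `1` whose
product is almost at most `K`. -/
theorem result :
  ∀ n : ℕ, 3 ≤ n → ∀ K : ℝ, 1 < K →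
    IsLUB {p : ℝ | (n : ℝ) ≤ p ∧ ∀ Ω f Df, IsQR (n := n) K Ω f Df → NC.FineFactor K Ω f →
        LocLp (ENNReal.ofReal p) Ω Df}
      ((n : ℝ) * K / (K - 1)) := by
  intro n hn K hK
  have hA := NC.avA hn
  exact NC.fine_of_main (by omega) (NC.kerS hn) hA ⟨NC.avB1 hn hA, NC.avB2 hn hA (NC.avB1 hn hA)⟩
    (NC.main_all hn) hK

end Pool.Agent.Results.MP_29b5d3_an.FineFactor
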