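import Mathlib
import Pool.Agent.MP_29b5d3_an.NC.All

set_option autoImplicit false

namespace Pool.Agent.Results.MP_29b5d3_an.NearConformal

open Filter Topology Pool.Agent.MP_29b5d3_an.h48

/-- The supremum `p(n,K)` of the exponents of local integrability of the derivative of all
`K`-quasiregular maps satisfies `(K - 1) p(n,K) → n` as `K → 1` from the right. -/
theorem result :
  ∀ n : ℕ, 3 ≤ n →
    Tendsto (fun K : ℝ => (K - 1) * sSup {p : ℝ | (n : ℝ) ≤ p ∧
      ∀ Ω f Df, IsQR (n := n) K Ω f Df → LocLp (ENNReal.ofReal p) Ω Df})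
      (𝓝[>] 1) (𝓝 (n : ℝ)) :=
  fun _ hn => Pool.Agent.MP_29b5d3_an.NC.limit_of_main hn (Pool.Agent.MP_29b5d3_an.NC.main_all hn)

end Pool.Agent.Results.MP_29b5d3_an.NearConformal
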