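import Mathlib
import Pool.Agent.MP_29b5d3_an.h48.Upper

set_option autoImplicit false

namespace Pool.Agent.Results.MP_29b5d3_an.RotationSymmetric

open Pool.Agent.MP_29b5d3_an.h48

/-- The sharp exponent `nK/(K-1)` for `K`-quasiregular maps that commute with all rotations
fixing pointwise the orthogonal complement of a subspace `W` of dimension at least `n/2`. -/
theorem result :
  ∀ n : ℕ, 3 ≤ n → ∀ W : Submodule ℝ (EuclideanSpace ℝ (Fin n)), n ≤ 2 * Module.finrank ℝ W →
    ∀ K : ℝ, 1 < K →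
    IsLUB {p : ℝ | (n : ℝ) ≤ p ∧ ∀ Ω f Df, IsQR (n := n) K Ω f Df →
        (∀ Q, IsRotationOf W Q → Commutes Ω f Q) → LocLp (ENNReal.ofReal p) Ω Df}
      ((n : ℝ) * K / (K - 1)) := by
  intro n hn W hW K hK
  have e : Module.finrank ℝ (EuclideanSpace ℝ (Fin n)) = n := finrank_euclideanSpace_fin
  refine isLUB_of (by omega) hK (fun p hp Ω f Df h1 h2 C hC hCΩ => ?_) fun p hp h => ?_
  · exact main_rot (by omega) W (by omega) h1.sobOn.1 hK h1.sobOn.2
      (fun Q q1 q2 => h2 Q ⟨q1, q2⟩) (by rw [e]; exact hp) hC hCΩ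
  · exact lt_of_locLp_rad (by omega) hK hp
      (h _ _ _ (isQR_rad (by omega) hK) fun Q _ x _ _ => rad_iso _ Q x)

end Pool.Agent.Results.MP_29b5d3_an.RotationSymmetric
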